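import Mathlib.Topology.Semicontinuity.Basic
import Mathlib.Topology.Instances.Real.Lemmas
import Mathlib.Topology.Order.Real
import Mathlib.Topology.Algebra.Order.LiminfLimsup
import Mathlib.Topology.Separation.Basic
import Mathlib.Topology.Compactness.Compact
import Mathlib.Topology.Order.Compact

/-!
# Bounded and unbounded cocycles of analytic TAF algebras

The canonical diagonal of a UHF algebra has the spectrum `X = ∏ₙ Fin (k n)`, and the equivalence
relation is the tail equivalence relation.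
-/

set_option autoImplicit false

namespace Pool.Agent.Results.MP_3ea43b_an.BoundedCocycle

open Set Topology Filter

/-! ### Definitions -/

/-- The spectrum `X = ∏ₙ {0, …, k n - 1}` of the diagonal. -/
abbrev XX (k : ℕ → ℕ) : Type := ∀ n, Fin (k n)

/-- The relation `ℛ_N`: the coordinates agree from the place `N` on. -/
def TailN {k : ℕ → ℕ} (N : ℕ) (x y : XX k) : Prop := ∀ n, N ≤ n → x n = y n

/-- The AF equivalence relation `ℛ`, the union of the `ℛ_N`. -/
def Tail {k : ℕ → ℕ} (x y : XX k) : Prop := ∃ N, TailN N x y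

/-- `c` is a (continuous) cocycle on `ℛ`. Here `ℛ` carries the inductive limit topology of the
compact spaces `ℛ_N`, so that continuity means continuity on each `ℛ_N`. -/
structure IsCocycle {k : ℕ → ℕ} (c : XX k → XX k → ℝ) : Prop where
  cont : ∀ N, ContinuousOn (fun p : XX k × XX k => c p.1 p.2) {p | TailN N p.1 p.2}
  add : ∀ x y z, Tail x y → Tail y z → c x y + c y z = c x z

/-- The cocycle is bounded on `ℛ`. -/
def IsBdd {k : ℕ → ℕ} (c : XX k → XX k → ℝ) : Prop := ∃ B : ℝ, ∀ x y, Tail x y → |c x y| ≤ B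

/-- `P` is the spectrum of a triangular AF subalgebra: an open subset of `ℛ` which is a partial
order on each equivalence class. -/
structure IsTAFSpectrum {k : ℕ → ℕ} (P : XX k → XX k → Prop) : Prop where
  sub : ∀ x y, P x y → Tail x y
  refl : ∀ x, P x x
  trans : ∀ x y z, P x y → P y z → P x z
  antisymm : ∀ x y, P x y → P y x → x = y
  isOpen : ∀ N, IsOpen {p : {p : XX k × XX k // TailN N p.1 p.2} | P p.1.1 p.1.2}

/-- `P` admits the cocycle `c`. -/
def Admits {k : ℕ → ℕ} (P : XX k → XX k → Prop) (c : XX k → XX k → ℝ) : Prop :=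
  ∀ x y, Tail x y → (P x y ↔ 0 ≤ c x y)

/-! ### Basic facts -/

variable {k : ℕ → ℕ}

theorem Tail.refl (x : XX k) : Tail x x := ⟨0, fun _ _ => rfl⟩

theorem Tail.symm {x y : XX k} (h : Tail x y) : Tail y x := by
  obtain ⟨N, h⟩ := h
  exact ⟨N, fun n hn => (h n hn).symm⟩

theorem Tail.trans {x y z : XX k} (h : Tail x y) (h' : Tail y z) : Tail x z := by
  obtain ⟨N, h⟩ := h
  obtain ⟨M, h'⟩ := h'
  exact ⟨max N M, fun n hn => (h n ((le_max_left _ _).trans hn)).trans
    (h' n ((le_max_right _ _).trans hn))⟩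

/-- Replace the first `N` coordinates of `x` by those of `y`. -/
def rep (N : ℕ) (y x : XX k) : XX k := fun n => if n < N then y n else x n

theorem rep_tailN (N : ℕ) (y x : XX k) : TailN N (rep N y x) x := fun n hn => by
  simp only [rep]
  rw [if_neg (not_lt.2 hn)]

theorem rep_tail (N : ℕ) (y x : XX k) : Tail (rep N y x) x := ⟨N, rep_tailN N y x⟩

theorem rep_eq {N : ℕ} {y x : XX k} (h : TailN N y x) : rep N y x = y := by
  funext n
  simp only [rep]
  split_ifs with hn
  · rfl
  · exact (h n (not_lt.1 hn)).symm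

theorem continuous_rep (N : ℕ) (y : XX k) : Continuous (rep N y) := by
  refine continuous_pi fun n => ?_
  simp only [rep]
  split_ifs
  · exact continuous_const
  · exact continuous_apply n

/-- Every orbit is dense. -/
theorem exists_rep_mem {U : Set (XX k)} (hU : IsOpen U) {u : XX k} (hu : u ∈ U) :
    ∃ N, ∀ x, rep N u x ∈ U := by
  rw [isOpen_pi_iff] at hU
  obtain ⟨I, v, hv, hI⟩ := hU u hu
  refine ⟨I.sup id + 1, fun x => hI fun n hn => ?_⟩
  have h1 : n < I.sup id + 1 := Nat.lt_succ_of_le (Finset.le_sup (f := id) hn)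
  simp only [rep]
  rw [if_pos h1]
  exact (hv n hn).2

variable {c : XX k → XX k → ℝ}

theorem IsCocycle.self (hc : IsCocycle c) (x : XX k) : c x x = 0 := by
  have := hc.add x x x (Tail.refl x) (Tail.refl x)
  linarith

theorem IsCocycle.symm (hc : IsCocycle c) {x y : XX k} (h : Tail x y) : c y x = - c x y := by
  have h1 := hc.add x y x h h.symm
  rw [hc.self] at h1
  linarith

theorem IsCocycle.continuous_rep (hc : IsCocycle c) (N : ℕ) (y : XX k) :
    Continuous fun x => c (rep N y x) x := by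
  have h := hc.cont N
  have h2 : Continuous fun x : XX k => (rep N y x, x) :=
    (BoundedCocycle.continuous_rep N y).prodMk continuous_id
  exact h.comp_continuous h2 fun x => rep_tailN N y x

/-! ### Bounded cocycles are trivial -/

/-- The supremum of `c (·, x)` over the orbit of `x`. -/
noncomputable def bb (c : XX k → XX k → ℝ) (x : XX k) : ℝ := ⨆ p : ℕ × XX k, c (rep p.1 p.2 x) x

theorem bdd_bb (hB : IsBdd c) (x : XX k) :
    BddAbove (range fun p : ℕ × XX k => c (rep p.1 p.2 x) x) := by
  obtain ⟨B, hB⟩ := hB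
  refine ⟨B, ?_⟩
  rintro _ ⟨p, rfl⟩
  exact (abs_le.1 (hB _ _ (rep_tail p.1 p.2 x))).2

theorem le_bb (hB : IsBdd c) {x y : XX k} (h : Tail y x) : c y x ≤ bb c x := by
  obtain ⟨N, hN⟩ := h
  have := le_ciSup (bdd_bb hB x) (N, y)
  simp only [rep_eq hN] at this
  exact this

theorem bb_le (x : XX k) {t : ℝ} (h : ∀ y, Tail y x → c y x ≤ t) : bb c x ≤ t := by
  have : Nonempty (ℕ × XX k) := ⟨(0, x)⟩
  exact ciSup_le fun p => h _ (rep_tail p.1 p.2 x)

theorem bb_tail (hc : IsCocycle c) (hB : IsBdd c) {x z : XX k} (h : Tail x z) :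
    bb c z = bb c x + c x z := by
  refine le_antisymm (bb_le z fun y hy => ?_) ?_
  · rw [← hc.add y x z (hy.trans h.symm) h]
    have := le_bb hB (hy.trans h.symm)
    linarith
  · have h1 : bb c x ≤ bb c z - c x z := bb_le x fun y hy => by
      have h2 := le_bb hB (hy.trans h)
      rw [← hc.add y x z hy h] at h2
      linarith
    linarith

theorem lsc_bb (hc : IsCocycle c) (hB : IsBdd c) : LowerSemicontinuous (bb c) :=
  lowerSemicontinuous_ciSup (bdd_bb hB) fun p => (hc.continuous_rep p.1 p.2).lowerSemicontinuous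

theorem isCocycle_neg (hc : IsCocycle c) : IsCocycle fun x y => - c x y where
  cont N := (hc.cont N).neg
  add x y z hxy hyz := by
    rw [← hc.add x y z hxy hyz]
    ring

theorem isBdd_neg (hB : IsBdd c) : IsBdd fun x y : XX k => - c x y := by
  obtain ⟨B, hB⟩ := hB
  exact ⟨B, fun x y h => by rw [abs_neg]; exact hB x y h⟩

/-- Bounded cocycles are continuous coboundaries. -/
theorem exists_coboundary (hc : IsCocycle c) (hB : IsBdd c) :
    ∃ b : XX k → ℝ, Continuous b ∧ ∀ x y, Tail x y → c x y = b y - b x := by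
  refine ⟨bb c, ?_, fun x y h => by rw [bb_tail hc hB h]; ring⟩
  set c' : XX k → XX k → ℝ := fun x y => - c x y with hc'
  have hcc := isCocycle_neg hc
  have hBB := isBdd_neg hB
  -- `bb c + bb c'` is lower semicontinuous and invariant, hence constant
  have hw : LowerSemicontinuous fun x => bb c x + bb c' x := (lsc_bb hc hB).add (lsc_bb hcc hBB)
  have hinv : ∀ x y, Tail x y → bb c x + bb c' x = bb c y + bb c' y := by
    intro x y h
    rw [bb_tail hc hB h, bb_tail hcc hBB h]
    ring
  have hle : ∀ x x₀, bb c x + bb c' x ≤ bb c x₀ + bb c' x₀ := by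
    intro x x₀
    by_contra hcon
    push Not at hcon
    have hU : IsOpen {z | bb c x₀ + bb c' x₀ < bb c z + bb c' z} := hw.isOpen_preimage _
    obtain ⟨N, hN⟩ := exists_rep_mem hU hcon
    have h1 := hN x₀
    rw [mem_ofPred_eq, hinv _ _ (rep_tail N x x₀)] at h1
    exact lt_irrefl _ h1
  rcases isEmpty_or_nonempty (XX k) with he | ⟨⟨x₀⟩⟩
  · exact continuous_of_const fun x => he.elim x
  have heq : bb c = fun x => (bb c x₀ + bb c' x₀) + - bb c' x := by
    funext x
    have := le_antisymm (hle x x₀) (hle x₀ x)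
    linarith
  rw [continuous_iff_lower_upperSemicontinuous]
  refine ⟨lsc_bb hc hB, ?_⟩
  rw [heq]
  have h1 := lsc_bb hcc hBB
  intro x t ht
  have h2 : (bb c x₀ + bb c' x₀) - t < bb c' x := by
    simp only at ht
    linarith
  filter_upwards [h1 x _ h2] with y hy
  linarith

/-! ### The main theorem -/

theorem bounded_of_bounded (hk : ∀ n, 2 ≤ k n) {P : XX k → XX k → Prop}
    (hP : ∀ x y, P x y → P y x → x = y) {c c' : XX k → XX k → ℝ} (hc : IsCocycle c)
    (hc' : IsCocycle c') (hPc : Admits P c) (hPc' : Admits P c') (hB : IsBdd c') : IsBdd c := by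
  obtain ⟨b, hb, hbc⟩ := exists_coboundary hc' hB
  have hsign : ∀ x y, Tail x y → (0 ≤ c x y ↔ b x ≤ b y) := by
    intro x y h
    rw [← hPc x y h, hPc' x y h, hbc x y h, sub_nonneg]
  have : Nonempty (XX k) := ⟨fun n => ⟨0, by have := hk n; omega⟩⟩
  have : CompactSpace (XX k) := inferInstance
  -- the maximum of `b`
  obtain ⟨xm, -, hxm⟩ := isCompact_univ.exists_isMaxOn univ_nonempty hb.continuousOn
  have hm : ∀ x, b x ≤ b xm := fun x => hxm (mem_univ x)
  set m := b xm with hmdef
  -- for every point `x` there are `N` and `y` with `b (rep N y x) < m`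
  have hlow : ∀ x : XX k, ∃ (N : ℕ) (y : XX k), b (rep N y x) < m := by
    intro x
    by_contra hcon
    push Not at hcon
    -- change the zeroth coordinate of `x`
    have h2 := hk 0
    let y : XX k := fun n => if h : n = 0 then (if (x n : ℕ) = 0 then ⟨1, by subst h; omega⟩
      else ⟨0, by subst h; omega⟩) else x n
    have hy0 : y 0 ≠ x 0 := by
      intro h
      have h3 := congrArg Fin.val h
      simp only [y] at h3
      rw [dif_pos trivial] at h3
      split_ifs at h3 with h4
      · simp [h4] at h3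
      · exact h4 h3.symm
    have hyx : TailN 1 y x := by
      intro n hn
      simp only [y]
      rw [dif_neg (by omega)]
    have h1 := hcon 1 y
    rw [rep_eq hyx] at h1
    have h3 := hcon 0 x
    have h4 : rep 0 x x = x := rep_eq fun n _ => rfl
    rw [h4] at h3
    have hyx' : Tail y x := ⟨1, hyx⟩
    have h5 : b y = b x := le_antisymm ((hm y).trans h3) ((hm x).trans h1)
    have h6 : P y x := (hPc y x hyx').2 ((hsign y x hyx').2 h5.le)
    have h7 : P x y := (hPc x y hyx'.symm).2 ((hsign x y hyx'.symm).2 h5.ge)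
    exact hy0 (congrFun (hP y x h6 h7) 0)
  -- a uniform version by compactness
  have hbdd : ∀ (N : ℕ) (y : XX k), ∃ C, ∀ x, |c (rep N y x) x| ≤ C := by
    intro N y
    have h1 : Continuous fun x => |c (rep N y x) x| := (hc.continuous_rep N y).abs
    obtain ⟨z, -, hz⟩ := isCompact_univ.exists_isMaxOn univ_nonempty h1.continuousOn
    exact ⟨_, fun x => hz (mem_univ x)⟩
  have hA : ∃ η > 0, ∃ C₁ : ℝ, ∀ x, ∃ y, Tail y x ∧ b y < m - η ∧ |c y x| ≤ C₁ := by
    choose N y hy using hlow
    -- open cover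
    have hU : ∀ x, IsOpen {z : XX k | b (rep (N x) (y x) z) < (b (rep (N x) (y x) x) + m) / 2} :=
      fun x => isOpen_lt (hb.comp (continuous_rep _ _)) continuous_const
    obtain ⟨t, ht⟩ := isCompact_univ.elim_finite_subcover _ hU (fun x _ => mem_iUnion.2 ⟨x, by
      change b _ < _
      linarith [hy x]⟩)
    choose C hC using hbdd
    have hne : t.Nonempty := by
      obtain ⟨x₀⟩ := ‹Nonempty (XX k)›
      have := ht (mem_univ x₀)
      simp only [mem_iUnion] at this
      obtain ⟨i, hi, -⟩ := this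
      exact ⟨i, hi⟩
    obtain ⟨i₀, hi₀, hmin⟩ := t.exists_min_image (fun x => (m - b (rep (N x) (y x) x)) / 2) hne
    obtain ⟨i₁, hi₁, hmax⟩ := t.exists_max_image (fun x => C (N x) (y x)) hne
    refine ⟨(m - b (rep (N i₀) (y i₀) i₀)) / 2, by linarith [hy i₀], C (N i₁) (y i₁),
      fun x => ?_⟩
    have hx := ht (mem_univ x)
    simp only [mem_iUnion] at hx
    obtain ⟨i, hi, hxi⟩ := hx
    refine ⟨rep (N i) (y i) x, rep_tail _ _ _, ?_, (hC _ _ _).trans (hmax i hi)⟩
    have h1 : b (rep (N i) (y i) x) < (b (rep (N i) (y i) i) + m) / 2 := hxi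
    have h2 := hmin i hi
    linarith
  obtain ⟨η, hη, C₁, hA⟩ := hA
  -- from everywhere one gets above the level `m - η` at a bounded cost
  have hBB : ∃ C₂ : ℝ, ∀ x, ∃ z, Tail z x ∧ m - η < b z ∧ |c z x| ≤ C₂ := by
    have hU : IsOpen {z : XX k | m - η < b z} := isOpen_lt continuous_const hb
    have hxmU : xm ∈ {z : XX k | m - η < b z} := by
      change m - η < b xm
      linarith
    obtain ⟨N, hN⟩ := exists_rep_mem hU hxmU
    obtain ⟨C, hC⟩ := hbdd N xm
    exact ⟨C, fun x => ⟨rep N xm x, rep_tail _ _ _, hN x, hC x⟩⟩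
  obtain ⟨C₂, hBB⟩ := hBB
  have hC₂ : 0 ≤ C₂ := by
    obtain ⟨x₀⟩ := ‹Nonempty (XX k)›
    obtain ⟨z, -, -, h⟩ := hBB x₀
    exact (abs_nonneg _).trans h
  -- the upper bound
  have hup : ∀ x y, Tail x y → c x y ≤ C₁ + C₂ := by
    intro x y hxy
    obtain ⟨y', hy'1, hy'2, hy'3⟩ := hA y
    have hxy' : Tail x y' := hxy.trans hy'1.symm
    have h1 : c x y = c x y' + c y' y := (hc.add x y' y hxy' hy'1).symm
    have h2 : c y' y ≤ C₁ := (abs_le.1 hy'3).2
    have h3 : c x y' ≤ C₂ := by
      obtain ⟨z, hz1, hz2, hz3⟩ := hBB x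
      have hy'z : Tail y' z := hxy'.symm.trans hz1.symm
      have h4 : 0 ≤ c y' z := (hsign y' z hy'z).2 (by linarith)
      have h5 : c x z = c x y' + c y' z := (hc.add x y' z hxy' hy'z).symm
      have h6 : c x z = - c z x := hc.symm hz1
      have h7 := (abs_le.1 hz3).1
      linarith
    linarith
  refine ⟨C₁ + C₂, fun x y hxy => abs_le.2 ⟨?_, hup x y hxy⟩⟩
  have h1 := hup y x hxy.symm
  rw [hc.symm hxy] at h1
  linarith

/-- An analytic triangular AF subalgebra of a UHF algebra which admits a bounded cocycle admits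
only bounded cocycles. -/
theorem result (k : ℕ → ℕ) (hk : ∀ n, 2 ≤ k n) (P : XX k → XX k → Prop) (hP : IsTAFSpectrum P)
    (c c' : XX k → XX k → ℝ) (hc : IsCocycle c) (hc' : IsCocycle c') (hPc : Admits P c)
    (hPc' : Admits P c') (hB : IsBdd c') : IsBdd c :=
  bounded_of_bounded hk hP.antisymm hc hc' hPc hPc' hB

end Pool.Agent.Results.MP_3ea43b_an.BoundedCocycle
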